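import Pool.Agent.H84.PackE

/-! A Borel subset of the Cantor group with uncountably many pairwise disjoint translates and no
perfect family of pairwise disjoint translates. -/

namespace Pool.Agent.Results.MP_15e54c_lc.Yes

theorem result : ∃ B : Set (ℕ → ZMod 2), @MeasurableSet _ (borel (ℕ → ZMod 2)) B ∧
    (∃ H : Set (ℕ → ZMod 2), ¬ H.Countable ∧
      H.Pairwise fun x y => Disjoint ((· + x) '' B) ((· + y) '' B)) ∧
    ¬ ∃ P : Set (ℕ → ZMod 2), P.Nonempty ∧ Perfect P ∧
      P.Pairwise fun x y => Disjoint ((· + x) '' B) ((· + y) '' B) := by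
  obtain ⟨B, h1, h2, h3⟩ := Pool.Agent.H84.Pack.main2
  refine ⟨B, by rwa [← BorelSpace.measurable_eq], h2, fun ⟨P, hP, hP', h⟩ => ?_⟩
  have hc := h3 P hP'.closed h
  letI := TopologicalSpace.upgradeIsCompletelyMetrizable (ℕ → ZMod 2)
  obtain ⟨f, hf, -, hi⟩ := hP'.exists_nat_bool_injection hP
  have := (hc.mono hf).preimage_of_injOn hi.injOn
  rw [Set.preimage_range, Set.countable_univ_iff, ← Cardinal.mk_le_aleph0_iff] at this
  simp [Cardinal.aleph0_lt_continuum.not_ge] at this

end Pool.Agent.Results.MP_15e54c_lc.Yes
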